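import Mathlib
import Pool.Agent.H29.Parent

namespace Pool.Agent.Results.MP_128071_co.TwoM

open SimpleGraph

/-- `f` is a graceful labeling of `G`. -/
def IsGraceful {W : Type} (G : SimpleGraph W) (f : W → ℕ) : Prop :=
  Function.Injective f ∧ (∀ v, f v ≤ G.edgeSet.ncard) ∧
    ∀ a b c d, G.Adj a b → G.Adj c d → |(f a : ℤ) - f b| = |(f c : ℤ) - f d| → s(a, b) = s(c, d)

theorem ptr_tree {W : Type} (ρ : W) (π : W → W) (rk : W → ℕ) (h : ∀ w, w ≠ ρ → rk (π w) < rk w) :
    (fromRel fun u v => u ≠ ρ ∧ v = π u).IsTree := by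
  refine ⟨?_, H29.Parent.acyclic _ rk π ?_⟩
  · have : ∀ n w, rk w = n → (fromRel fun u v => u ≠ ρ ∧ v = π u).Reachable w ρ := by
      intro n
      induction n using Nat.strong_induction_on with
      | _ n ih =>
        intro w hw
        by_cases hρ : w = ρ
        · rw [hρ]
        · have h1 := h w hρ
          refine Reachable.trans (Adj.reachable ?_) (ih _ (hw ▸ h1) (π w) rfl)
          rw [fromRel_adj]
          exact ⟨fun e => by rw [← e] at h1; omega, Or.inl ⟨hρ, rfl⟩⟩
    have hW : Nonempty W := ⟨ρ⟩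
    exact ⟨fun a b => (this _ a rfl).trans (this _ b rfl).symm⟩
  · intro a b hab
    rw [fromRel_adj] at hab
    rcases hab.2 with ⟨p, q⟩ | ⟨p, q⟩
    · exact Or.inl ⟨q, q ▸ h a p⟩
    · exact Or.inr ⟨q, q ▸ h b p⟩

theorem ncard_tree {W : Type} [Fintype W] {G : SimpleGraph W} (h : G.IsTree) :
    G.edgeSet.ncard + 1 = Fintype.card W := by
  classical
  rw [← h.card_edgeFinset, ← Set.ncard_coe_finset, coe_edgeFinset]

theorem glue {W : Type} [Fintype W] (ρ : W) (π : W → W) (rk : W → ℕ)
    (h : ∀ w, w ≠ ρ → rk (π w) < rk w) (sd : W → Prop) (x : W → ℕ) (a b : ℕ)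
    (hs : ∀ w, w ≠ ρ → (sd (π w) ↔ ¬ sd w)) (hx : ∀ u v, (sd u ↔ sd v) → x u = x v → u = v)
    (ha : ∀ w, sd w → x w < a) (hb : ∀ w, ¬ sd w → x w < b) (hab : a + b = Fintype.card W)
    (hsum : ∀ u v, u ≠ ρ → v ≠ ρ → x u + x (π u) = x v + x (π v) → u = v) :
    ∃ (f : W → ℕ) (l : ℕ), IsGraceful (fromRel fun u v => u ≠ ρ ∧ v = π u) f ∧
      ∀ u v, (fromRel fun u v => u ≠ ρ ∧ v = π u).Adj u v →
        min (f u) (f v) ≤ l ∧ l < max (f u) (f v) := by
  classical
  have hc := ncard_tree (ptr_tree ρ π rk h)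
  let f : W → ℕ := fun w => if sd w then a - 1 - x w else a + x w
  have f1 : ∀ w, sd w → f w + x w + 1 = a := fun w hw => by
    have := ha w hw
    simp only [f, if_pos hw]; omega
  have f2 : ∀ w, ¬ sd w → f w = a + x w := fun w hw => if_neg hw
  have key : ∀ w, w ≠ ρ → |(f w : ℤ) - f (π w)| = x w + x (π w) + 1 ∧
      min (f w) (f (π w)) ≤ a - 1 ∧ a - 1 < max (f w) (f (π w)) := fun w hw => by
    by_cases h1 : sd w
    · have := f1 w h1
      have := f2 (π w) (by rw [hs w hw]; exact fun h => h h1)
      refine ⟨?_, by omega, by omega⟩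
      rw [abs_of_nonpos (by omega)]; omega
    · have := f2 w h1
      have := f1 (π w) (by rw [hs w hw]; exact h1)
      refine ⟨?_, by omega, by omega⟩
      rw [abs_of_nonneg (by omega)]; omega
  have edge : ∀ u v, (fromRel fun u v => u ≠ ρ ∧ v = π u).Adj u v →
      ∃ w, w ≠ ρ ∧ s(u, v) = s(w, π w) ∧ |(f u : ℤ) - f v| = |(f w : ℤ) - f (π w)| ∧
        min (f u) (f v) = min (f w) (f (π w)) ∧ max (f u) (f v) = max (f w) (f (π w)) := by
    intro u v huv
    rw [fromRel_adj] at huv
    rcases huv.2 with ⟨p, rfl⟩ | ⟨p, rfl⟩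
    · exact ⟨u, p, rfl, rfl, rfl, rfl⟩
    · exact ⟨v, p, Sym2.eq_swap, abs_sub_comm _ _, min_comm _ _, max_comm _ _⟩
  refine ⟨f, a - 1, ⟨fun u v huv => ?_, fun v => ?_, fun u v u' v' h1 h2 h3 => ?_⟩,
    fun u v huv => ?_⟩
  · by_cases hu : sd u <;> by_cases hv : sd v
    · have := f1 u hu; have := f1 v hv; exact hx u v (by tauto) (by omega)
    · have := f1 u hu; have := f2 v hv; omega
    · have := f2 u hu; have := f1 v hv; omega
    · have := f2 u hu; have := f2 v hv; exact hx u v (by tauto) (by omega)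
  · by_cases hv : sd v
    · have := f1 v hv; omega
    · have := f2 v hv; have := hb v hv; omega
  · obtain ⟨w, p1, p2, p3, -⟩ := edge u v h1
    obtain ⟨w', q1, q2, q3, -⟩ := edge u' v' h2
    rw [p3, q3, (key w p1).1, (key w' q1).1] at h3
    rw [p2, q2, hsum w w' p1 q1 (by omega)]
  · obtain ⟨w, p1, -, -, p3, p4⟩ := edge u v huv
    rw [p3, p4]; exact (key w p1).2

theorem order {V : Type} [Fintype V] (r : V) (par : V → V) (lev : V → ℕ) (z : ℕ → V) (h : ℕ)
    (h0 : ∀ v, lev v = 0 ↔ v = r) (h1 : ∀ v, v ≠ r → lev v = lev (par v) + 1)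
    (hz : ∀ i, i ≤ h → lev (z i) = i) (hp : ∀ i, i < h → par (z (i + 1)) = z i)
    (hh : ∀ v, lev v ≤ h) :
    ∃ idx : V → ℕ, Function.Injective idx ∧ (∀ v, idx v < Fintype.card V) ∧
      (∀ u v, u ≠ r → v ≠ r → idx u ≤ idx v → idx (par u) ≤ idx (par v)) ∧
      (∀ u v, lev u < lev v → idx u < idx v) ∧ ∀ v, idx v ≤ idx (z (lev v)) := by
  classical
  set n := Fintype.card V with hn
  let e := Fintype.equivFin V
  let c : V → ℕ := fun v => if v = z (lev v) then n else e v
  have c1 : ∀ v, c v ≤ n := fun v => by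
    simp only [c]; split_ifs
    · rfl
    · exact (e v).2.le
  let F : ℕ → V → ℕ := fun k => Nat.rec (fun _ => 1) (fun _ g v => g (par v) * (n + 1) + c v) k
  let K : V → ℕ := fun v => F (lev v) v
  have KK : ∀ v, K v = F (lev v) v := fun _ => rfl
  have K0 : K r = 1 := by rw [KK, (h0 r).mpr rfl]; rfl
  have K1 : ∀ v, v ≠ r → K v = K (par v) * (n + 1) + c v := fun v hv => by
    rw [KK, KK, h1 v hv]
  clear_value K
  have npos : 0 < n := Fintype.card_pos_iff.mpr ⟨r⟩
  have Kpos : ∀ k v, lev v = k → 0 < K v := by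
    intro k
    induction k with
    | zero => intro v hv; rw [(h0 v).mp hv, K0]; exact one_pos
    | succ k ih =>
      intro v hv
      have hr : v ≠ r := fun e => by rw [(h0 v).mpr e] at hv; omega
      have := ih (par v) (by have := h1 v hr; omega)
      rw [K1 v hr]; positivity
  have Kst : ∀ u v, u ≠ r → v ≠ r → K (par u) < K (par v) → K u < K v := fun u v hu hv hl => by
    rw [K1 u hu, K1 v hv]
    have := c1 u
    nlinarith
  have Klev : ∀ k u v, lev v = k → lev u < lev v → K u < K v := by
    intro k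
    induction k with
    | zero => intro u v hv hl; omega
    | succ k ih =>
      intro u v hv hl
      have hr : v ≠ r := fun e => by rw [(h0 v).mpr e] at hv; omega
      by_cases hu : u = r
      · have := Kpos _ (par v) rfl
        rw [hu, K0, K1 v hr]; nlinarith
      · have := h1 v hr
        have := h1 u hu
        exact Kst u v hu hr (ih _ _ (by omega) (by omega))
  have Kinj : ∀ k u v, lev v = k → K u = K v → u = v := by
    intro k
    induction k with
    | zero =>
      intro u v hv hK
      by_contra hne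
      have hu : lev u ≠ 0 := fun e => hne (by rw [(h0 u).mp e, (h0 v).mp hv])
      have := Klev _ v u rfl (by omega)
      omega
    | succ k ih =>
      intro u v hv hK
      have hl : lev u = lev v := by
        rcases lt_trichotomy (lev u) (lev v) with l | l | l
        · have := Klev _ u v rfl l; omega
        · exact l
        · have := Klev _ v u rfl l; omega
      have hr : v ≠ r := fun e => by rw [(h0 v).mpr e] at hv; omega
      have hu : u ≠ r := fun e => by rw [(h0 u).mpr e] at hl; omega
      have hK' : K (par u) = K (par v) := by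
        rcases lt_trichotomy (K (par u)) (K (par v)) with l | l | l
        · have := Kst u v hu hr l; omega
        · exact l
        · have := Kst v u hr hu l; omega
      rw [K1 u hu, K1 v hr, hK'] at hK
      have hc : c u = c v := by omega
      simp only [c] at hc
      split_ifs at hc with a b b
      · rw [a, b, hl]
      · have := (e v).2; omega
      · have := (e u).2; omega
      · exact e.injective (Fin.ext hc)
  have Kmax : ∀ k v, lev v = k → K v ≤ K (z k) := by
    intro k
    induction k with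
    | zero => intro v hv; rw [(h0 v).mp hv, (h0 (z 0)).mp (hz 0 (Nat.zero_le _))]
    | succ k ih =>
      intro v hv
      have hk : k + 1 ≤ h := hv ▸ hh v
      have hr : v ≠ r := fun e => by rw [(h0 v).mpr e] at hv; omega
      have hr' : z (k + 1) ≠ r := fun e => by have := (h0 _).mpr e; have := hz _ hk; omega
      have h3 := ih (par v) (by have := h1 v hr; omega)
      have h4 : c (z (k + 1)) = n := if_pos (by rw [hz _ hk])
      rw [K1 v hr, K1 _ hr', hp k hk, h4]
      have := c1 v
      nlinarith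
  let idx : V → ℕ := fun v => (Finset.univ.filter fun u : V => (K u : ℕ) < K v).card
  have i1 : ∀ u v, K u < K v → idx u < idx v := fun u v hl => by
    refine Finset.card_lt_card ⟨fun w hw => by simp at hw ⊢; omega, fun hs => ?_⟩
    have := @hs u (by simpa using hl)
    simp at this
  have i2 : ∀ u v, K u ≤ K v → idx u ≤ idx v := fun u v hl =>
    Finset.card_le_card fun w hw => by simp at hw ⊢; omega
  refine ⟨idx, fun u v huv => Kinj _ u v rfl ?_, fun v => ?_, fun u v hu hv hl => i2 _ _ ?_,
    fun u v hl => i1 _ _ (Klev _ u v rfl hl), fun v => i2 _ _ (Kmax _ v rfl)⟩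
  · rcases lt_trichotomy (K u) (K v) with l | l | l
    · have := i1 u v l; omega
    · exact l
    · have := i1 v u l; omega
  · exact Finset.card_lt_card ⟨Finset.subset_univ _, fun hs => by
      have := @hs v (Finset.mem_univ _)
      simp at this⟩
  · by_contra hc
    have := i1 _ _ (Kst v u hv hu (by omega))
    omega

theorem core {V : Type} [Fintype V] (r : V) (par : V → V) (lev : V → ℕ) (z : ℕ → V) (h : ℕ)
    (h0 : ∀ v, lev v = 0 ↔ v = r) (h1 : ∀ v, v ≠ r → lev v = lev (par v) + 1)
    (hz : ∀ i, i ≤ h → lev (z i) = i) (hp : ∀ i, i < h → par (z (i + 1)) = z i)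
    (hh : ∀ v, lev v ≤ h) :
    ∃ (W : Type) (_ : Fintype W) (T' : SimpleGraph W) (f : W → ℕ) (l : ℕ), T'.IsTree ∧
      (fromRel fun u v => u ≠ r ∧ v = par u) ⊑ T' ∧ Fintype.card W + h + 1 = 2 * Fintype.card V ∧
      IsGraceful T' f ∧ ∀ u v, T'.Adj u v → min (f u) (f v) ≤ l ∧ l < max (f u) (f v) := by
  classical
  obtain ⟨idx, i0, i1, i2, i3, i4⟩ := order r par lev z h h0 h1 hz hp hh
  set n := Fintype.card V with hn
  have F2 : ∀ d i, i + d ≤ h → idx (z i) + d ≤ idx (z (i + d)) := by
    intro d
    induction d with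
    | zero => intro i _; rfl
    | succ d ih =>
      intro i hi
      have := ih i (by omega)
      have := i3 (z (i + d)) (z (i + (d + 1))) (by rw [hz _ (by omega), hz _ hi]; omega)
      omega
  have F3 : ∀ u v, lev u < lev v → idx (z (lev u)) + lev v ≤ idx v + lev u := fun u v hl => by
    have := hh v
    have h3 := F2 (lev v - 1 - lev u) (lev u) (by omega)
    have := i3 (z (lev u + (lev v - 1 - lev u))) v (by rw [hz _ (by omega)]; omega)
    omega
  have F1 : ∀ u v, idx u ≤ idx v → lev u ≤ lev v := fun u v hl => by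
    by_contra hc
    have := i3 v u (by omega)
    omega
  have N1 : ∀ t, t ≠ z (lev t) → idx t < idx (z (lev t)) := fun t ht =>
    lt_of_le_of_ne (i4 t) (i0.ne ht)
  have G1 : ∀ u v, idx u ≤ idx v → idx u + lev v ≤ idx v + lev u := fun u v hl => by
    rcases (F1 u v hl).eq_or_lt with e | e
    · omega
    · have := F3 u v e; have := i4 u; omega
  have G2 : ∀ u v, u ≠ z (lev u) → idx u < idx v → idx u + lev v + 1 ≤ idx v + lev u :=
    fun u v hu hl => by
      rcases (F1 u v hl.le).eq_or_lt with e | e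
      · omega
      · have := F3 u v e; have := N1 u hu; omega
  have G5 : ∀ v, idx v ≤ idx (z h) := fun v => by
    rcases (hh v).eq_or_lt with e | e
    · exact e ▸ i4 v
    · exact (i3 _ _ (by rwa [hz h le_rfl])).le
  have G3 : ∀ v, idx v + h + 1 ≤ n + lev v := fun v => by
    have := G1 v _ (G5 v); have := i1 (z h); have := hz h le_rfl; omega
  have G4 : ∀ v, v ≠ z (lev v) → idx v + h + 2 ≤ n + lev v := fun v hv => by
    have := G2 v (z h) hv ((N1 v hv).trans_le (G5 _)); have := i1 (z h); have := hz h le_rfl; omega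
  have G0 : ∀ v, lev v ≤ idx v := fun v => by
    have := (h0 r).mpr rfl
    by_cases hv : lev v = 0
    · omega
    · have := G1 r v (i3 r v (by omega)).le; omega
  have hQ : ∀ t, ∃ q, (q = r ∨ idx (par q) ≤ idx t) ∧
      ∀ u, (u = r ∨ idx (par u) ≤ idx t) → idx u ≤ idx q := fun t => by
    obtain ⟨q, a, b⟩ := Finset.exists_max_image
      (Finset.univ.filter fun u => u = r ∨ idx (par u) ≤ idx t) idx ⟨r, by simp⟩
    exact ⟨q, by simpa using a, fun u hu => b u (by simpa using hu)⟩
  choose Q Q1 Q2 using hQ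
  have zr : z 0 = r := (h0 _).mp (hz 0 (Nat.zero_le _))
  have Q3 : ∀ t, t ≠ z (lev t) → idx t < idx (Q t) ∧ Q t ≠ r ∧ idx (par (Q t)) ≤ idx t ∧
      ((Q t = z (lev (Q t)) ∧ lev (Q t) = lev t) ∨
        (Q t ≠ z (lev (Q t)) ∧ lev (Q t) = lev t + 1)) := fun t ht => by
    have a1 : lev t ≠ 0 := fun e => ht (by rw [e, zr]; exact (h0 t).mp e)
    have a2 := hz _ (hh t)
    have a3 : z (lev t) ≠ r := fun e => a1 (a2 ▸ (h0 _).mpr e)
    have a4 := h1 _ a3
    have a5 := Q2 t (z (lev t)) (Or.inr (i3 _ _ (by omega)).le)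
    have a6 := N1 t ht
    have a7 := F1 _ _ a5
    have a8 : Q t ≠ r := fun e => by have := (h0 _).mpr e; omega
    have a9 := (Q1 t).resolve_left a8
    have b1 := F1 _ _ a9
    have b2 := h1 _ a8
    refine ⟨by omega, a8, a9, ?_⟩
    by_cases e : lev (Q t) = lev t
    · refine Or.inl ⟨i0 ?_, e⟩
      have := i4 (Q t)
      rw [e] at this ⊢; omega
    · refine Or.inr ⟨fun e' => ?_, by omega⟩
      have b3 : lev (Q t) = lev t + 1 := by omega
      have b4 := hh (Q t)
      rw [e', b3, hp _ (by omega)] at a9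
      omega
  let W := V ⊕ {t // t ≠ z (lev t)}
  let π : W → W := Sum.elim (fun v => Sum.inl (par v))
    (fun t => if h : Q t = z (lev (Q t)) then Sum.inl (Q t) else Sum.inr ⟨Q t, h⟩)
  let x : W → ℕ := Sum.elim (fun v => idx v - (lev v + 1) / 2) (fun t => idx t - lev t / 2)
  let sd : W → Prop := Sum.elim (fun v => lev v % 2 = h % 2) (fun t => lev t % 2 ≠ h % 2)
  let rk : W → ℕ := Sum.elim lev (fun t => 2 * n - idx t)
  have P : ∀ t : {t // t ≠ z (lev t)}, (π (Sum.inr t) = Sum.inl (Q t) ∧ lev (Q t) = lev t) ∨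
      ∃ h, π (Sum.inr t) = Sum.inr ⟨Q t, h⟩ ∧ lev (Q t) = lev t + 1 := fun t => by
    rcases (Q3 t t.2).2.2.2 with ⟨a, b⟩ | ⟨a, b⟩
    · exact Or.inl ⟨dif_pos a, b⟩
    · exact Or.inr ⟨a, dif_neg a, b⟩
  have hrk : ∀ w, w ≠ Sum.inl r → rk (π w) < rk w := by
    rintro (v | t) hw
    · have := h1 v (fun e => hw (e ▸ rfl))
      show lev (par v) < lev v
      omega
    · have := (Q3 t t.2).1
      have := i1 (Q t)
      have := G0 (Q t)
      rcases P t with ⟨a, b⟩ | ⟨_, a, b⟩ <;> rw [a]
      · show lev (Q t) < 2 * n - idx t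
        omega
      · show 2 * n - idx (Q t) < 2 * n - idx t
        omega
  have hW : Fintype.card W + h + 1 = 2 * n := by
    have c1 : Fintype.card {t // t = z (lev t)} = h + 1 := by
      rw [Fintype.card_subtype, ← Finset.card_range (h + 1)]
      symm
      refine Finset.card_bij (fun i _ => z i) (fun i hi => ?_) (fun i hi j hj e => ?_) (fun t ht => ?_)
      · simp only [Finset.mem_range] at hi
        simp [hz i (by omega)]
      · simp only [Finset.mem_range] at hi hj
        rw [← hz i (by omega), ← hz j (by omega)]; exact congrArg lev e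
      · exact ⟨lev t, Finset.mem_range.mpr (by have := hh t; omega), by simpa [eq_comm] using ht⟩
    have c2 := Fintype.card_subtype_compl fun t => t = z (lev t)
    have c3 := Fintype.card_subtype_le fun t => t = z (lev t)
    have c4 : Fintype.card W = n + Fintype.card {t // ¬ t = z (lev t)} := by
      simp only [W, Fintype.card_sum, hn]
    omega
  have hn1 := G3 r
  rw [(h0 r).mpr rfl] at hn1
  have S1 : ∀ v, v ≠ r → x (Sum.inl v) + x (π (Sum.inl v)) + lev v = idx v + idx (par v) :=
    fun v hv => by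
      have := h1 v hv; have := G0 v; have := G0 (par v)
      show idx v - (lev v + 1) / 2 + (idx (par v) - (lev (par v) + 1) / 2) + lev v = _
      omega
  have S2 : ∀ t, x (Sum.inr t) + x (π (Sum.inr t)) + lev t = idx t + idx (Q t) := fun t => by
    have := G0 t; have := G0 (Q t)
    rcases P t with ⟨a, b⟩ | ⟨_, a, b⟩ <;> rw [a]
    · show idx t - lev t / 2 + (idx (Q t) - (lev (Q t) + 1) / 2) + lev t = _
      omega
    · show idx t - lev t / 2 + (idx (Q t) - lev (Q t) / 2) + lev t = _
      omega
  have S3 : ∀ v t, v ≠ r → x (Sum.inl v) + x (π (Sum.inl v)) ≠ x (Sum.inr t) + x (π (Sum.inr t)) :=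
    fun v t hv => by
      have := S1 v hv; have := S2 t; have := h1 v hv
      obtain ⟨a, b, c, -⟩ := Q3 t t.2
      by_cases e : idx v ≤ idx (Q t)
      · have := G1 _ _ ((i2 _ _ hv b e).trans c); omega
      · have := G2 t (par v) t.2 (by by_contra hc; exact e (Q2 t v (Or.inr (by omega)))); omega
  have X3 : ∀ v t, (sd (Sum.inl v) ↔ sd (Sum.inr t)) → x (Sum.inl v) ≠ x (Sum.inr t) :=
    fun v t hs => by
      have hs' : lev v % 2 = h % 2 ↔ lev t % 2 ≠ h % 2 := hs
      show idx v - (lev v + 1) / 2 ≠ idx t - lev t / 2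
      have := G0 v; have := G0 t
      by_cases e : idx v ≤ idx t
      · have := G1 _ _ e; have := F1 _ _ e; omega
      · have := G2 t v t.2 (by omega); have := F1 t v (by omega); omega
  obtain ⟨f, l, g1, g2⟩ := glue (Sum.inl r) π rk hrk sd x (n - (h + 1) / 2) (n - 1 - h / 2)
    (by
      rintro (v | t) hw
      · have := h1 v (fun e => hw (e ▸ rfl))
        show lev (par v) % 2 = h % 2 ↔ ¬ lev v % 2 = h % 2
        omega
      · rcases P t with ⟨a, b⟩ | ⟨_, a, b⟩ <;> rw [a]
        · show lev (Q t) % 2 = h % 2 ↔ ¬ lev t % 2 ≠ h % 2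
          omega
        · show lev (Q t) % 2 ≠ h % 2 ↔ ¬ lev t % 2 ≠ h % 2
          omega)
    (by
      rintro (u | u) (v | v) hs e
      · have hs' : lev u % 2 = h % 2 ↔ lev v % 2 = h % 2 := hs
        have e' : idx u - (lev u + 1) / 2 = idx v - (lev v + 1) / 2 := e
        have := G0 u; have := G0 v
        refine congrArg _ (i0 ?_)
        rcases le_total (idx u) (idx v) with l | l <;> have := G1 _ _ l <;> have := F1 _ _ l <;> omega
      · exact absurd e (X3 u v hs)
      · exact absurd e.symm (X3 v u hs.symm)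
      · have hs' : lev u % 2 ≠ h % 2 ↔ lev v % 2 ≠ h % 2 := hs
        have e' : idx u - lev u / 2 = idx v - lev v / 2 := e
        have := G0 u; have := G0 v
        refine congrArg _ (Subtype.ext (i0 ?_))
        rcases le_total (idx u) (idx v) with l | l <;> have := G1 _ _ l <;> have := F1 _ _ l <;> omega)
    (by
      rintro (v | t) hs
      · have hs' : lev v % 2 = h % 2 := hs
        show idx v - (lev v + 1) / 2 < _
        have := G3 v; have := hh v; omega
      · have hs' : lev t % 2 ≠ h % 2 := hs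
        show idx t - lev t / 2 < _
        have := G4 t t.2; have := hh t; omega)
    (by
      rintro (v | t) hs
      · have hs' : ¬ lev v % 2 = h % 2 := hs
        show idx v - (lev v + 1) / 2 < _
        have := G3 v; have := hh v; have := G0 v; omega
      · have hs' : ¬ lev t % 2 ≠ h % 2 := hs
        show idx t - lev t / 2 < _
        have := G4 t t.2; have := hh t; omega)
    (by show _ = Fintype.card W; omega)
    (by
      rintro (u | u) (v | v) hu hv e
      · have hu' : u ≠ r := fun e => hu (e ▸ rfl)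
        have hv' : v ≠ r := fun e => hv (e ▸ rfl)
        have := S1 u hu'; have := S1 v hv'; have := h1 u hu'; have := h1 v hv'
        refine congrArg _ (i0 ?_)
        rcases le_total (idx u) (idx v) with l | l
        · have := G1 _ _ (i2 _ _ hu' hv' l); omega
        · have := G1 _ _ (i2 _ _ hv' hu' l); omega
      · exact absurd e (S3 u v fun e => hu (e ▸ rfl))
      · exact absurd e.symm (S3 v u fun e => hv (e ▸ rfl))
      · have := S2 u; have := S2 v
        refine congrArg _ (Subtype.ext (i0 ?_))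
        rcases lt_trichotomy (idx u) (idx v) with l | l | l
        · have := G2 _ _ u.2 l
          have := Q2 v (Q u) (Or.inr ((Q3 u u.2).2.2.1.trans l.le)); omega
        · exact l
        · have := G2 _ _ v.2 l
          have := Q2 u (Q v) (Or.inr ((Q3 v v.2).2.2.1.trans l.le)); omega)
  refine ⟨W, inferInstance, _, f, l, ptr_tree _ π rk hrk, ⟨⟨⟨Sum.inl, fun {a b} hab => ?_⟩,
    Sum.inl_injective⟩⟩, hW, g1, g2⟩
  rw [fromRel_adj] at hab ⊢
  refine ⟨Sum.inl_injective.ne hab.1, hab.2.imp ?_ ?_⟩ <;> rintro ⟨p, q⟩ <;>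
    exact ⟨Sum.inl_injective.ne p, congrArg _ q⟩

theorem result {n : ℕ} (T : SimpleGraph (Fin n)) (hT : T.IsTree) :
    ∃ (N : ℕ) (T' : SimpleGraph (Fin N)) (f : Fin N → ℕ) (l : ℕ), T'.IsTree ∧ T ⊑ T' ∧
      T'.edgeSet.ncard + T.diam = 2 * T.edgeSet.ncard ∧ IsGraceful T' f ∧
      ∀ u v, T'.Adj u v → min (f u) (f v) ≤ l ∧ l < max (f u) (f v) := by
  classical
  have hc := hT.connected
  have := hc.nonempty
  obtain ⟨r, y, hy⟩ := T.exists_dist_eq_diam
  have hpar : ∀ v, ∃ p, v ≠ r → T.Adj v p ∧ T.dist r v = T.dist r p + 1 := fun v => by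
    by_cases hv : v = r
    · exact ⟨v, fun h => absurd hv h⟩
    · obtain ⟨p, hp⟩ := (hc.preconnected v r).exists_walk_length_eq_dist
      cases p with
      | nil => exact absurd rfl hv
      | cons a q =>
        rename_i w
        refine ⟨w, fun _ => ⟨a, ?_⟩⟩
        have h1 := T.dist_le q
        have h2 := hT.dist_eq_dist_add_one_of_adj r a
        rw [Walk.length_cons, dist_comm] at hp
        rw [dist_comm] at h1
        omega
  choose par hpar using hpar
  have h0 : ∀ v, T.dist r v = 0 ↔ v = r := fun v => by rw [hc.dist_eq_zero_iff, eq_comm]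
  have hz : ∀ k, k ≤ T.diam → T.dist r (par^[k] y) + k = T.diam := by
    intro k
    induction k with
    | zero => intro _; exact hy
    | succ k ih =>
      intro hk
      have := ih (by omega)
      have := (hpar (par^[k] y) fun e => by have := (h0 _).mpr e; omega).2
      rw [Function.iterate_succ_apply']; omega
  obtain ⟨W, _, T', f, l, a1, a2, a3, a4, a5⟩ := core r par (T.dist r) (fun i => par^[T.diam - i] y)
    T.diam h0 (fun v hv => (hpar v hv).2) (fun i hi => by have := hz (T.diam - i) (by omega); omega)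
    (fun i hi => by
      rw [show T.diam - i = T.diam - (i + 1) + 1 by omega, Function.iterate_succ_apply'])
    (fun v => dist_le_diam (connected_iff_ediam_ne_top.mp hc))
  have hle : T ≤ fromRel fun u v => u ≠ r ∧ v = par u :=
    (isTree_iff_minimal_connected.mp hT).2
      (ptr_tree r par (T.dist r) fun w hw => by have := (hpar w hw).2; omega).connected
      (fun a b hab => by
        rw [fromRel_adj] at hab
        rcases hab.2 with ⟨p, rfl⟩ | ⟨p, rfl⟩
        · exact (hpar a p).1
        · exact (hpar b p).1.symm)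
  let e := Fintype.equivFin W
  let φ : T'.comap e.symm ≃g T' := Iso.comap e.symm T'
  have b1 : (T'.comap e.symm).IsTree := φ.isTree_iff.mpr a1
  have b2 := ncard_tree a1
  have b3 := ncard_tree b1
  have b4 := ncard_tree hT
  rw [Fintype.card_fin] at b3
  refine ⟨_, T'.comap e.symm, f ∘ e.symm, l, b1,
    ((IsContained.of_le hle).trans a2).trans ⟨φ.symm.toCopy⟩, by omega,
    ⟨a4.1.comp e.symm.injective, fun v => ?_, fun a b c d p q s => ?_⟩, fun u v p => a5 _ _ p⟩
  · have := a4.2.1 (e.symm v)
    simp only [Function.comp]; omega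
  · have := a4.2.2 _ _ _ _ p q s
    simpa using this

end Pool.Agent.Results.MP_128071_co.TwoM
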